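import Mathlib

set_option autoImplicit false

/-!
# Arc-complexity of uniform matroids

`U_{2b,4b}` has a standard representation with `2 b ^ 2 + 8 b` arcs. For `b ≥ 5` this is less than
`r (n - r) = 4 b ^ 2`.

The digraph: sources `x < 2 b`, vertices `u(c, i)` and `w(c, i)` with `c < 2`, `i < b`, and sinks
`y < 2 b`; arcs `x → u(c, x / 2)`, `u(c, i) → w(c, j)`, `w(c, y / 2) → y`. To link a set of sources
to a set of sinks of the same size, list both increasingly and join the `t`-th source to the `t`-th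
sink through the vertices `u(t mod 2, ·)` and `w(t mod 2, ·)`.
-/

namespace Pool.Agent.Results.MP_0a0514_co.FewerArcs

open Set

/-- A path of the digraph with vertex set `V` and arc set `A`: a nonempty sequence of distinct
vertices, consecutive ones joined by arcs. -/
def IsPath {V : Type} (A : Set (V × V)) (p : List V) : Prop :=
  p ≠ [] ∧ p.Nodup ∧ p.IsChain (fun u v => (u, v) ∈ A)

/-- `R` is a routing from `X` to `T`: a set of pairwise vertex-disjoint paths such that every
`x ∈ X` is the first vertex of some path in `R` and every path in `R` ends in `T`. -/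
def IsRouting {V : Type} (A : Set (V × V)) (R : Set (List V)) (X T : Set V) : Prop :=
  (∀ p ∈ R, IsPath A p) ∧ (∀ p ∈ R, ∀ q ∈ R, p ≠ q → List.Disjoint p q) ∧
    (∀ x ∈ X, ∃ p ∈ R, p.head? = some x) ∧ (∀ p ∈ R, ∃ t ∈ T, p.getLast? = some t)

/-- `((V, A), T, E)` is a standard representation of the matroid `M`. The ground set `E ⊆ V` is
given as the image of the ground set of `M` under the injective map `f`, and `T` is a subset of
the ground set of `M`. -/
structure IsStandardRep {α : Type} (M : Matroid α) (V : Type) (A : Set (V × V)) (T : Set α)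
    (f : α → V) : Prop where
  inj : InjOn f M.E
  subset : T ⊆ M.E
  sink : ∀ t ∈ T, ∀ v, (f t, v) ∉ A
  source : ∀ e ∈ M.E, e ∉ T → ∀ v, (v, f e) ∉ A
  indep : ∀ X ⊆ M.E, M.Indep X ↔ ∃ R, IsRouting A R (f '' X) (f '' T)

/-- The arc-complexity of `M`: the least number of arcs of a standard representation of `M`. -/
noncomputable def arcC {α : Type} (M : Matroid α) : ℕ :=
  sInf {k | ∃ (V : Type) (_ : Finite V) (A : Set (V × V)) (T : Set α) (f : α → V),
    IsStandardRep M V A T f ∧ A.ncard = k}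

/-- `M` is the uniform matroid of rank `r` on the `n`-element set `Fin n`: its independent sets are
the sets with at most `r` elements. -/
def IsUniform {n : ℕ} (M : Matroid (Fin n)) (r : ℕ) : Prop :=
  M.E = univ ∧ ∀ X : Set (Fin n), M.Indep X ↔ X.ncard ≤ r

/-! ### The digraph -/

/-- the vertices: sources, two middle layers, sinks -/
inductive Vx (b : ℕ) : Type
  | s (x : Fin (2 * b))
  | u (c : Fin 2) (i : Fin b)
  | w (c : Fin 2) (i : Fin b)
  | t (y : Fin (2 * b))
  deriving DecidableEq, Fintype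

/-- the pair that contains `x` -/
def half {b : ℕ} (x : Fin (2 * b)) : Fin b := ⟨x.1 / 2, by have := x.2; omega⟩

/-- the arcs -/
def arcs (b : ℕ) : Finset (Vx b × Vx b) :=
  (Finset.univ.image fun p : Fin (2 * b) × Fin 2 => (Vx.s p.1, Vx.u p.2 (half p.1))) ∪
  (Finset.univ.image fun p : Fin 2 × Fin b × Fin b => (Vx.u p.1 p.2.1, Vx.w p.1 p.2.2)) ∪
  (Finset.univ.image fun p : Fin (2 * b) × Fin 2 => (Vx.w p.2 (half p.1), Vx.t p.1))

lemma arcs_card (b : ℕ) : (arcs b).card ≤ 2 * b ^ 2 + 8 * b := by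
  unfold arcs
  refine (Finset.card_union_le _ _).trans ?_
  refine (Nat.add_le_add_right (Finset.card_union_le _ _) _).trans ?_
  refine (Nat.add_le_add (Nat.add_le_add Finset.card_image_le Finset.card_image_le)
    Finset.card_image_le).trans ?_
  simp only [Finset.card_univ, Fintype.card_prod, Fintype.card_fin]
  nlinarith

lemma mem_arcs {b : ℕ} (p : Vx b × Vx b) : p ∈ arcs b ↔
    (∃ x c, p = (Vx.s x, Vx.u c (half x))) ∨ (∃ c i j, p = (Vx.u c i, Vx.w c j)) ∨
    (∃ y c, p = (Vx.w c (half y), Vx.t y)) := by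
  unfold arcs
  simp only [Finset.mem_union, Finset.mem_image, Finset.mem_univ, true_and, Prod.exists]
  constructor
  · rintro ((⟨x, c, h⟩ | ⟨c, i, j, h⟩) | ⟨y, c, h⟩)
    · exact Or.inl ⟨x, c, h.symm⟩
    · exact Or.inr (Or.inl ⟨c, i, j, h.symm⟩)
    · exact Or.inr (Or.inr ⟨y, c, h.symm⟩)
  · rintro (⟨x, c, h⟩ | ⟨c, i, j, h⟩ | ⟨y, c, h⟩)
    · exact Or.inl (Or.inl ⟨x, c, h.symm⟩)
    · exact Or.inl (Or.inr ⟨c, i, j, h.symm⟩)
    · exact Or.inr ⟨y, c, h.symm⟩

/-- parity -/
def par (t : ℕ) : Fin 2 := ⟨t % 2, Nat.mod_lt _ (by norm_num)⟩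

lemma mono_half {b k : ℕ} (g : Fin k ↪o Fin (2 * b)) {t t' : Fin k} (hp : par t = par t')
    (hh : half (g t) = half (g t')) : t = t' := by
  have key : ∀ a c : Fin k, a < c → par a = par c → half (g a) = half (g c) → False := by
    intro a c hac hp hh
    have h1 : (a : ℕ) % 2 = c % 2 := congrArg Fin.val hp
    have h2 : (g a : ℕ) / 2 = (g c : ℕ) / 2 := congrArg Fin.val hh
    have h3 : (a : ℕ) < c := hac
    let d : Fin k := ⟨a + 1, by omega⟩
    have h4 : g a < g d := g.strictMono (by show (a : ℕ) < a + 1; omega)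
    have h5 : g d < g c := g.strictMono (by show (a : ℕ) + 1 < c; omega)
    have h6 : (g a : ℕ) < g d := h4
    have h7 : (g d : ℕ) < g c := h5
    omega
  rcases lt_trichotomy t t' with h | h | h
  · exact (key t t' h hp hh).elim
  · exact h
  · exact (key t' t h hp.symm hh.symm).elim

/-- the path number `t` -/
def pth {b k : ℕ} (g h : Fin k ↪o Fin (2 * b)) (t : Fin k) : List (Vx b) :=
  [Vx.s (g t), Vx.u (par t) (half (g t)), Vx.w (par t) (half (h t)), Vx.t (h t)]

lemma pth_isPath {b k : ℕ} (g h : Fin k ↪o Fin (2 * b)) (t : Fin k) :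
    IsPath (arcs b : Set (Vx b × Vx b)) (pth g h t) := by
  refine ⟨by simp [pth], by simp [pth], ?_⟩
  simp only [pth, List.isChain_cons_cons, List.isChain_singleton, and_true, Finset.mem_coe,
    mem_arcs]
  exact ⟨Or.inl ⟨_, _, rfl⟩, Or.inr (Or.inl ⟨_, _, _, rfl⟩), Or.inr (Or.inr ⟨_, _, rfl⟩)⟩

lemma pth_disjoint {b k : ℕ} (g h : Fin k ↪o Fin (2 * b)) {t t' : Fin k} (htt : t ≠ t') :
    List.Disjoint (pth g h t) (pth g h t') := by
  intro v hv hv'
  simp only [pth, List.mem_cons, List.not_mem_nil, or_false] at hv hv'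
  rcases hv with rfl | rfl | rfl | rfl <;> simp only [Vx.s.injEq, Vx.u.injEq, Vx.w.injEq,
    Vx.t.injEq, reduceCtorEq, or_false, false_or] at hv'
  · exact htt (g.injective hv')
  · exact htt (mono_half g hv'.1 hv'.2)
  · exact htt (mono_half h hv'.1 hv'.2)
  · exact htt (h.injective hv')

/-- where the ground set goes: sinks first, then sources -/
def emb (b : ℕ) (e : Fin (4 * b)) : Vx b :=
  if h : e.1 < 2 * b then Vx.t ⟨e.1, h⟩ else Vx.s ⟨e.1 - 2 * b, by have := e.2; omega⟩

lemma emb_inj (b : ℕ) : Function.Injective (emb b) := by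
  intro e e' h
  unfold emb at h
  apply Fin.ext
  split_ifs at h with h1 h2 h2
  · simpa using h
  · simp only [Vx.s.injEq, Fin.mk.injEq] at h
    omega

/-- the targets -/
def tgt (b : ℕ) : Set (Fin (4 * b)) := {e | e.1 < 2 * b}

lemma routable {b : ℕ} (X : Set (Fin (4 * b))) (hX : X.ncard ≤ 2 * b) :
    ∃ R, IsRouting (arcs b : Set (Vx b × Vx b)) R (emb b '' X) (emb b '' tgt b) := by
  classical
  -- sources and sinks in `X`
  let P : Finset (Fin (2 * b)) := Finset.univ.filter fun x => ∃ e ∈ X, emb b e = Vx.s x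
  let Q : Finset (Fin (2 * b)) := Finset.univ.filter fun y => ∃ e ∈ X, emb b e = Vx.t y
  have hPQ : P.card + Q.card ≤ 2 * b := by
    have h1 : (P.image fun x => Vx.s x) ∪ (Q.image fun y => Vx.t y) ⊆
        X.toFinset.image (emb b) := by
      intro v hv
      rw [Finset.mem_union, Finset.mem_image, Finset.mem_image] at hv
      rcases hv with ⟨x, hx, rfl⟩ | ⟨x, hx, rfl⟩
      · obtain ⟨e, he, hex⟩ := (Finset.mem_filter.1 hx).2
        exact Finset.mem_image.2 ⟨e, by simpa using he, hex⟩
      · obtain ⟨e, he, hex⟩ := (Finset.mem_filter.1 hx).2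
        exact Finset.mem_image.2 ⟨e, by simpa using he, hex⟩
    have h2 := Finset.card_le_card h1
    rw [Finset.card_union_of_disjoint, Finset.card_image_of_injective,
      Finset.card_image_of_injective] at h2
    · refine h2.trans (Finset.card_image_le.trans ?_)
      rw [← Set.ncard_eq_toFinset_card']
      exact hX
    · intro x y h; simpa using h
    · intro x y h; simpa using h
    · rw [Finset.disjoint_left]
      intro v hv hv'
      obtain ⟨x, _, rfl⟩ := Finset.mem_image.1 hv
      obtain ⟨y, _, h⟩ := Finset.mem_image.1 hv'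
      simp at h
  have hQc : P.card ≤ (Finset.univ \ Q).card := by
    rw [Finset.card_sdiff_of_subset (Finset.subset_univ _), Finset.card_univ, Fintype.card_fin]
    omega
  obtain ⟨Y, hYQ, hY⟩ := Finset.exists_subset_card_eq hQc
  let g : Fin P.card ↪o Fin (2 * b) := P.orderEmbOfFin rfl
  let h : Fin P.card ↪o Fin (2 * b) := Y.orderEmbOfFin hY
  have hhY : ∀ t, h t ∉ Q := fun t =>
    (Finset.mem_sdiff.1 (hYQ (Finset.orderEmbOfFin_mem Y hY t))).2
  refine ⟨range (pth g h) ∪ (fun y => [Vx.t y]) '' (Q : Set (Fin (2 * b))), ?_, ?_, ?_, ?_⟩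
  · rintro p (⟨t, rfl⟩ | ⟨y, _, rfl⟩)
    · exact pth_isPath g h t
    · exact ⟨by simp, by simp, by simp⟩
  · rintro p (⟨t, rfl⟩ | ⟨y, hy, rfl⟩) q (⟨t', rfl⟩ | ⟨y', hy', rfl⟩) hpq
    · exact pth_disjoint g h fun h' => hpq (by rw [h'])
    · intro v hv hv'
      rw [List.mem_singleton] at hv'
      subst hv'
      simp only [pth, List.mem_cons, List.not_mem_nil, or_false, reduceCtorEq, Vx.t.injEq,
        false_or] at hv
      exact hhY t (by rw [← hv]; exact hy')
    · intro v hv' hv
      rw [List.mem_singleton] at hv'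
      subst hv'
      simp only [pth, List.mem_cons, List.not_mem_nil, or_false, reduceCtorEq, Vx.t.injEq,
        false_or] at hv
      exact hhY t' (by rw [← hv]; exact hy)
    · intro v hv hv'
      rw [List.mem_singleton] at hv hv'
      apply hpq
      show [Vx.t y] = [Vx.t y']
      rw [← hv, ← hv']
  · rintro v ⟨e, he, rfl⟩
    by_cases h1 : e.1 < 2 * b
    · refine ⟨[emb b e], Or.inr ⟨⟨e.1, h1⟩, ?_, ?_⟩, rfl⟩
      · rw [Finset.mem_coe, Finset.mem_filter]
        refine ⟨Finset.mem_univ _, e, he, ?_⟩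
        unfold emb
        rw [dif_pos h1]
      · unfold emb
        rw [dif_pos h1]
    · have h2 : emb b e = Vx.s ⟨e.1 - 2 * b, by have := e.2; omega⟩ := by
        unfold emb
        rw [dif_neg h1]
      have h3 : (⟨e.1 - 2 * b, by have := e.2; omega⟩ : Fin (2 * b)) ∈ P :=
        Finset.mem_filter.2 ⟨Finset.mem_univ _, e, he, h2⟩
      have h4 : (⟨e.1 - 2 * b, by have := e.2; omega⟩ : Fin (2 * b)) ∈ range g := by
        rw [Finset.range_orderEmbOfFin]
        exact h3
      obtain ⟨t, ht⟩ := h4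
      refine ⟨pth g h t, Or.inl ⟨t, rfl⟩, ?_⟩
      rw [h2, ← ht]
      rfl
  · have hmem : ∀ y : Fin (2 * b), ∃ t ∈ emb b '' tgt b, t = Vx.t y := by
      intro y
      refine ⟨Vx.t y, ⟨⟨y.1, by have := y.2; omega⟩, y.2, ?_⟩, rfl⟩
      unfold emb
      rw [dif_pos y.2]
    rintro p (⟨t, rfl⟩ | ⟨y, _, rfl⟩)
    · obtain ⟨z, hz, hz'⟩ := hmem (h t)
      exact ⟨z, hz, by rw [hz']; rfl⟩
    · obtain ⟨z, hz, hz'⟩ := hmem y
      exact ⟨z, hz, by rw [hz']; rfl⟩

lemma card_of_routing {V : Type} [Finite V] {A : Set (V × V)} {R : Set (List V)} {X T : Set V}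
    (h : IsRouting A R X T) : X.ncard ≤ T.ncard := by
  classical
  obtain ⟨_, hdis, hX, hT⟩ := h
  rcases isEmpty_or_nonempty V with hV | hV
  · rw [Set.eq_empty_of_isEmpty X, Set.ncard_empty]
    exact Nat.zero_le _
  choose! p hp hpx using hX
  choose! e he hpe using hT
  apply Set.ncard_le_ncard_of_injOn (fun x => e (p x))
  · intro x hx
    exact he _ (hp x hx)
  · intro x hx y hy hxy
    by_contra hne
    have h1 : p x ≠ p y := by
      intro h1
      have h2 := hpx x hx
      rw [h1, hpx y hy] at h2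
      exact hne (Option.some.inj h2).symm
    have h2 := hdis _ (hp x hx) _ (hp y hy) h1
    have h3 := List.mem_of_getLast? (hpe _ (hp x hx))
    have h4 := List.mem_of_getLast? (hpe _ (hp y hy))
    exact h2 h3 (by rw [show e (p x) = e (p y) from hxy]; exact h4)

lemma tgt_ncard (b : ℕ) : (tgt b).ncard = 2 * b := by
  have h : tgt b = (fun y : Fin (2 * b) => (⟨y.1, by have := y.2; omega⟩ : Fin (4 * b))) ''
      univ := by
    ext e
    constructor
    · intro he
      exact ⟨⟨e.1, he⟩, mem_univ _, rfl⟩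
    · rintro ⟨y, _, rfl⟩
      exact y.2
  rw [h, Set.ncard_image_of_injective, Set.ncard_univ, Nat.card_eq_fintype_card, Fintype.card_fin]
  intro x y hxy
  exact Fin.ext (by simpa using congrArg Fin.val hxy)

lemma rep {b : ℕ} (M : Matroid (Fin (4 * b))) (hM : IsUniform M (2 * b)) :
    IsStandardRep M (Vx b) (arcs b : Set (Vx b × Vx b)) (tgt b) (emb b) where
  inj := (emb_inj b).injOn
  subset := by rw [hM.1]; exact subset_univ _
  sink := by
    intro t ht v hv
    have ht' : t.1 < 2 * b := ht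
    unfold emb at hv
    rw [dif_pos ht', Finset.mem_coe, mem_arcs] at hv
    simp at hv
  source := by
    intro e _ he v hv
    have he' : ¬ e.1 < 2 * b := he
    unfold emb at hv
    rw [dif_neg he', Finset.mem_coe, mem_arcs] at hv
    simp at hv
  indep := by
    intro X _
    rw [hM.2]
    constructor
    · exact routable X
    · rintro ⟨R, hR⟩
      have h1 := card_of_routing hR
      rw [Set.ncard_image_of_injective _ (emb_inj b), Set.ncard_image_of_injective _ (emb_inj b),
        tgt_ncard] at h1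
      exact h1

/-- existence of uniform matroids -/
lemma exists_uniform (n r : ℕ) : ∃ M : Matroid (Fin n), IsUniform M r := by
  refine ⟨(IndepMatroid.ofFinite (E := univ) Set.finite_univ (fun I => I.ncard ≤ r) (by simp)
    (fun I J hJ hIJ => (Set.ncard_le_ncard hIJ (Set.toFinite _)).trans hJ) ?_
    (fun _ _ => Set.subset_univ _)).matroid, rfl, fun X => Iff.rfl⟩
  intro I J _ hJ hIJ
  obtain ⟨e, heJ, heI⟩ := Set.exists_mem_notMem_of_ncard_lt_ncard hIJ
  refine ⟨e, heJ, heI, ?_⟩
  rw [Set.ncard_insert_of_notMem heI (Set.toFinite _)]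
  omega

/-- **Uniform matroids can have fewer arcs.** For every `b` the matroid `U_{2b,4b}` has
arc-complexity at most `2 b ^ 2 + 8 b`; for `b ≥ 5` this is less than `2 b (4 b - 2 b)`. So
`arcC(U_{r,n}) = r (n - r)` does not hold for all `0 ≤ r ≤ n`. -/
theorem result :
    (∃ (n r : ℕ), r ≤ n ∧ ∃ M : Matroid (Fin n), IsUniform M r ∧ arcC M < r * (n - r) ∧
      ∃ (V : Type) (_ : Finite V) (A : Set (V × V)) (T : Set (Fin n)) (f : Fin n → V),
        IsStandardRep M V A T f ∧ A.ncard < r * (n - r)) ∧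
    (∀ (b : ℕ) (M : Matroid (Fin (4 * b))), IsUniform M (2 * b) →
      arcC M ≤ 2 * b ^ 2 + 8 * b) := by
  have key : ∀ (b : ℕ) (M : Matroid (Fin (4 * b))), IsUniform M (2 * b) →
      arcC M ≤ 2 * b ^ 2 + 8 * b := by
    intro b M hM
    refine le_trans (Nat.sInf_le ⟨Vx b, inferInstance, _, _, _, rep M hM, rfl⟩) ?_
    rw [Set.ncard_coe_finset]
    exact arcs_card b
  refine ⟨⟨4 * 5, 2 * 5, by norm_num, ?_⟩, key⟩
  obtain ⟨M, hM⟩ := exists_uniform (4 * 5) (2 * 5)
  refine ⟨M, hM, (key 5 M hM).trans_lt (by norm_num), Vx 5, inferInstance, _, _, _, rep M hM, ?_⟩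
  rw [Set.ncard_coe_finset]
  exact (arcs_card 5).trans_lt (by norm_num)

end Pool.Agent.Results.MP_0a0514_co.FewerArcs
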